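import Pool.Agent.H82.PRP.Stmts

/-!
# PRP, module AUGB : basic facts on the augmentation ideal
-/

namespace Pool.Agent.H82.PRP

namespace AUGB

variable {p : ℕ} {P : Type} [Group P]

theorem mem_augI {f : MonoidAlgebra (ZMod p) P} : f ∈ augI p P ↔ augMap p P f = 0 := Iff.rfl

theorem augMap_of (g : P) : augMap p P (MonoidAlgebra.of (ZMod p) P g) = 1 := by
  unfold augMap
  simp

theorem mul_left_mem (a : MonoidAlgebra (ZMod p) P) {f : MonoidAlgebra (ZMod p) P}
    (hf : f ∈ augI p P) : a * f ∈ augI p P := by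
  rw [mem_augI] at *
  rw [map_mul, hf, mul_zero]

theorem mul_right_mem (a : MonoidAlgebra (ZMod p) P) {f : MonoidAlgebra (ZMod p) P}
    (hf : f ∈ augI p P) : f * a ∈ augI p P := by
  rw [mem_augI] at *
  rw [map_mul, hf, zero_mul]

/-- left multiplication, for the product `I * J` of subspaces with `I` a left ideal -/
theorem left_mul {I J : Submodule (ZMod p) (MonoidAlgebra (ZMod p) P)}
    (hI : ∀ a, ∀ f ∈ I, a * f ∈ I) (a : MonoidAlgebra (ZMod p) P) :
    ∀ f ∈ I * J, a * f ∈ I * J := by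
  intro f hf
  induction hf using Submodule.mul_induction_on' with
  | mem_mul_mem m hm n hn =>
    rw [← mul_assoc]
    exact Submodule.mul_mem_mul (hI a m hm) hn
  | add x _ y _ hx hy =>
    rw [mul_add]
    exact Submodule.add_mem _ hx hy

theorem right_mul {I J : Submodule (ZMod p) (MonoidAlgebra (ZMod p) P)}
    (hJ : ∀ a, ∀ f ∈ J, f * a ∈ J) (a : MonoidAlgebra (ZMod p) P) :
    ∀ f ∈ I * J, f * a ∈ I * J := by
  intro f hf
  induction hf using Submodule.mul_induction_on' with
  | mem_mul_mem m hm n hn =>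
    rw [mul_assoc]
    exact Submodule.mul_mem_mul hm (hJ a n hn)
  | add x _ y _ hx hy =>
    rw [add_mul]
    exact Submodule.add_mem _ hx hy

theorem pow_left (n : ℕ) (hn : 1 ≤ n) : ∀ a : MonoidAlgebra (ZMod p) P, ∀ f ∈ (augI p P) ^ n,
    a * f ∈ (augI p P) ^ n := by
  obtain ⟨k, rfl⟩ : ∃ k, n = k + 1 := ⟨n - 1, by omega⟩
  intro a f hf
  rw [pow_succ'] at *
  exact left_mul (fun a f hf => mul_left_mem a hf) a f hf

theorem pow_right (n : ℕ) (hn : 1 ≤ n) : ∀ a : MonoidAlgebra (ZMod p) P, ∀ f ∈ (augI p P) ^ n,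
    f * a ∈ (augI p P) ^ n := by
  obtain ⟨k, rfl⟩ : ∃ k, n = k + 1 := ⟨n - 1, by omega⟩
  intro a f hf
  rw [pow_succ] at *
  exact right_mul (fun a f hf => mul_right_mem a hf) a f hf

theorem pow_anti (n : ℕ) (hn : 1 ≤ n) : (augI p P) ^ (n + 1) ≤ (augI p P) ^ n := by
  rw [pow_succ]
  rw [Submodule.mul_le]
  intro m hm k _
  exact pow_right n hn k m hm

theorem map_pow' {R : Type} [Group R] (φ : P →* R) (n : ℕ) : ∀ f ∈ (augI p P) ^ n,
    MonoidAlgebra.mapDomainAlgHom (ZMod p) (ZMod p) φ f ∈ (augI p R) ^ n := by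
  have h1 : ∀ f ∈ augI p P, MonoidAlgebra.mapDomainAlgHom (ZMod p) (ZMod p) φ f ∈ augI p R := by
    intro f hf
    rw [mem_augI] at *
    have : (augMap p R).comp (MonoidAlgebra.mapDomainAlgHom (ZMod p) (ZMod p) φ) = augMap p P := by
      apply MonoidAlgebra.algHom_ext
      · intro x
        unfold augMap
        simp
      · ext
    rw [← hf, ← this]
    rfl
  induction n with
  | zero =>
    intro f hf
    rw [pow_zero] at *
    rw [Submodule.mem_one] at *
    obtain ⟨y, rfl⟩ := hf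
    exact ⟨y, by rw [AlgHom.commutes]⟩
  | succ n ih =>
    intro f hf
    rw [pow_succ] at *
    induction hf using Submodule.mul_induction_on' with
    | mem_mul_mem m hm k hk =>
      rw [map_mul]
      exact Submodule.mul_mem_mul (ih m hm) (h1 k hk)
    | add x _ y _ hx hy =>
      rw [map_add]
      exact Submodule.add_mem _ hx hy

end AUGB

theorem augb_thm : AUGBStmt := by
  intro p _ P _
  refine ⟨?_, ?_, ?_, ?_, ?_⟩
  · intro g
    rw [AUGB.mem_augI, map_sub, AUGB.augMap_of, map_one, sub_self]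
  · intro f
    refine ⟨augMap p P f, ?_⟩
    rw [AUGB.mem_augI, map_sub, AlgHom.commutes]
    simp
  · intro n hn a f hf
    exact ⟨AUGB.pow_left n hn a f hf, AUGB.pow_right n hn a f hf⟩
  · intro n hn
    exact AUGB.pow_anti n hn
  · intro R _ φ n
    exact AUGB.map_pow' φ n

end Pool.Agent.H82.PRP
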