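import Pool.Agent.H82.PRP.Stmts

/-!
# PRP, module BQ : growth of the lamplighter groups
-/

namespace Pool.Agent.H82.PRP

namespace BQ

theorem subexp_lin : Subexp (fun k => 2 * (k + 1)) := by
  intro ε hε
  refine ⟨2 * (1 + 1 / ε), ?_⟩
  intro n
  have h1 : 1 + (n : ℝ) * ε ≤ (1 + ε) ^ n := one_add_mul_le_pow (by linarith) n
  have h2 : (0 : ℝ) < 1 / ε := by positivity
  have h3 : 2 * (1 + 1 / ε) * (1 + (n : ℝ) * ε) ≤ 2 * (1 + 1 / ε) * (1 + ε) ^ n :=
    mul_le_mul_of_nonneg_left h1 (by positivity)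
  refine le_trans ?_ h3
  have h4 : 2 * (1 + 1 / ε) * (1 + (n : ℝ) * ε) = 2 * (1 + n * ε + 1 / ε + n) := by
    field_simp
    ring
  rw [h4]
  push_cast
  have h5 : (0 : ℝ) ≤ n * ε := by positivity
  linarith

end BQ

theorem bq_thm (hPBW : PBWStmt) (hSUB : SUBXStmt) (hLIDX : LIDXStmt) (hSYS : SYSStmt)
    (hCMP : CMPStmt) (hLFIN : LFINStmt) : BQStmt := by
  intro p _ F _ _ _ _ _ gen D hF α hα
  obtain ⟨α', β, hα', hβ⟩ := hSYS p F gen D hF
  obtain ⟨_, hsurj, _⟩ := hCMP p F gen D hF α β hα hβ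
  have main : ∀ m n, 1 ≤ n → ∀ t : ℝ, 0 < t → t < 1 →
      (Module.finrank (ZMod p) (MonoidAlgebra (ZMod p) (Lamp p m) ⧸ (augI p (Lamp p m)) ^ n) : ℝ) ≤
        (t⁻¹) ^ n * ∏ k ∈ Finset.Ico 1 n, ((1 - t ^ k)⁻¹) ^ (2 * (k + 1)) := by
    intro m n hn t h0 h1
    have hfin := (hLFIN p m).1.1
    refine hPBW p (Lamp p m) (hLFIN p m).1.2 (fun k => (D k).map (α m)) ?_ ?_ ?_ ?_
      (fun k => 2 * (k + 1)) ?_ n hn t h0 h1
    · intro k
      exact (hF.normal k).map _ (hsurj m)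
    · intro a b hab
      exact Subgroup.map_mono (hF.anti hab)
    · rw [hF.one]
      exact Subgroup.map_top_of_surjective _ (hsurj m)
    · rintro k hk g ⟨x, hx, rfl⟩
      exact hF.aug (Lamp p m) (α m) (hα.cont m) k hk x hx
    · intro k hk
      have h2 := hLIDX p F gen D hF α hα m (k + 1) (by omega)
      refine le_trans ?_ h2
      have : ((D (k + 1)).map (α m)).FiniteIndex := inferInstance
      have hn : ((D (k + 1)).map (α m)).Normal := (hF.normal (k + 1)).map _ (hsurj m)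
      exact Nat.le_of_dvd (Nat.pos_of_ne_zero this.index_ne_zero)
        (Subgroup.relIndex_dvd_index_of_normal _ _)
  have bound : ∀ t : ℝ, 0 < t → t < 1 → ∃ C : ℝ, 0 < C ∧ ∀ m n, 1 ≤ n →
      (Module.finrank (ZMod p) (MonoidAlgebra (ZMod p) (Lamp p m) ⧸ (augI p (Lamp p m)) ^ n) : ℝ) ≤
        C * (t⁻¹) ^ n := by
    intro t h0 h1
    obtain ⟨C, hC, hC'⟩ := hSUB _ BQ.subexp_lin t h0 h1
    refine ⟨C, hC, ?_⟩
    intro m n hn
    refine (main m n hn t h0 h1).trans ?_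
    rw [mul_comm]
    exact mul_le_mul_of_nonneg_right (hC' n) (by positivity)
  set S : ℕ → Set ℕ := fun n => Set.range (fun m => Module.finrank (ZMod p)
    (MonoidAlgebra (ZMod p) (Lamp p m) ⧸ (augI p (Lamp p m)) ^ n)) with hS
  have hbdd : ∀ n, 1 ≤ n → BddAbove (S n) := by
    intro n hn
    obtain ⟨C, hC, hC'⟩ := bound (1 / 2) (by norm_num) (by norm_num)
    refine ⟨⌊C * ((1 / 2 : ℝ)⁻¹) ^ n⌋₊, ?_⟩
    rintro _ ⟨m, rfl⟩
    exact Nat.le_floor (hC' m n hn)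
  refine ⟨fun n => sSup (S n), ?_, ?_⟩
  · intro ε hε
    obtain ⟨C, hC, hC'⟩ := bound (1 + ε)⁻¹ (by positivity) (inv_lt_one_of_one_lt₀ (by linarith))
    refine ⟨C + (sSup (S 0) : ℕ), ?_⟩
    intro n
    rcases Nat.eq_zero_or_pos n with rfl | hn
    · simp only [pow_zero, mul_one]
      linarith
    · have hmem : sSup (S n) ∈ S n := Nat.sSup_mem (Set.range_nonempty _) (hbdd n hn)
      obtain ⟨m, hm⟩ := hmem
      change ((sSup (S n) : ℕ) : ℝ) ≤ _
      rw [← hm]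
      refine (hC' m n hn).trans ?_
      rw [inv_inv]
      have : (0 : ℝ) ≤ (sSup (S 0) : ℕ) * (1 + ε) ^ n := by positivity
      linarith
  · intro m n hn
    exact le_csSup (hbdd n hn) ⟨m, rfl⟩

end Pool.Agent.H82.PRP
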