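import Pool.Agent.H82.PRP.Stmts

/-!
# PRP, module GAM : the dimension filtration of the discrete free group
-/

namespace Pool.Agent.H82.PRP

namespace GAM

variable {p : ℕ} {P : Type} [Group P]

theorem anti_pow (hA : AUGBStmt) [Fact p.Prime] {n m : ℕ} (hn : 1 ≤ n) (h : n ≤ m) :
    (augI p P) ^ m ≤ (augI p P) ^ n := by
  induction m, h using Nat.le_induction with
  | base => exact le_rfl
  | succ m hm ih => exact ((hA p P).2.2.2.1 m (hn.trans hm)).trans ih

theorem left (hA : AUGBStmt) [Fact p.Prime] {n : ℕ} (hn : 1 ≤ n) (a : MonoidAlgebra (ZMod p) P)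
    {f : MonoidAlgebra (ZMod p) P} (hf : f ∈ (augI p P) ^ n) : a * f ∈ (augI p P) ^ n :=
  ((hA p P).2.2.1 n hn a f hf).1

theorem right (hA : AUGBStmt) [Fact p.Prime] {n : ℕ} (hn : 1 ≤ n) (a : MonoidAlgebra (ZMod p) P)
    {f : MonoidAlgebra (ZMod p) P} (hf : f ∈ (augI p P) ^ n) : f * a ∈ (augI p P) ^ n :=
  ((hA p P).2.2.1 n hn a f hf).2

/-- the dimension subgroups -/
noncomputable def DD (hA : AUGBStmt) (p : ℕ) [Fact p.Prime] (P : Type) [Group P] (n : ℕ) :
    Subgroup P where
  carrier := {g | MonoidAlgebra.of (ZMod p) P g - 1 ∈ (augI p P) ^ (max n 1)}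
  mul_mem' := by
    intro g h hg hh
    change MonoidAlgebra.of (ZMod p) P (g * h) - 1 ∈ (augI p P) ^ (max n 1)
    have h1 : MonoidAlgebra.of (ZMod p) P (g * h) - 1 =
        (MonoidAlgebra.of (ZMod p) P g - 1) * MonoidAlgebra.of (ZMod p) P h +
          (MonoidAlgebra.of (ZMod p) P h - 1) := by
      rw [map_mul]; noncomm_ring
    rw [h1]
    exact Submodule.add_mem _ (right hA (le_max_right _ _) _ hg) hh
  one_mem' := by
    change MonoidAlgebra.of (ZMod p) P 1 - 1 ∈ (augI p P) ^ (max n 1)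
    rw [map_one, sub_self]
    exact Submodule.zero_mem _
  inv_mem' := by
    intro g hg
    change MonoidAlgebra.of (ZMod p) P g⁻¹ - 1 ∈ (augI p P) ^ (max n 1)
    have h0 : MonoidAlgebra.of (ZMod p) P g⁻¹ * MonoidAlgebra.of (ZMod p) P g = 1 := by
      rw [← map_mul, inv_mul_cancel, map_one]
    have h1 : MonoidAlgebra.of (ZMod p) P g⁻¹ - 1 =
        - (MonoidAlgebra.of (ZMod p) P g⁻¹ * (MonoidAlgebra.of (ZMod p) P g - 1)) := by
      rw [mul_sub, h0, mul_one]; abel
    rw [h1]
    exact Submodule.neg_mem _ (left hA (le_max_right _ _) _ hg)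

theorem mem_DD (hA : AUGBStmt) [Fact p.Prime] {n : ℕ} {g : P} :
    g ∈ DD hA p P n ↔ MonoidAlgebra.of (ZMod p) P g - 1 ∈ (augI p P) ^ (max n 1) := Iff.rfl

theorem DD_anti (hA : AUGBStmt) [Fact p.Prime] : Antitone (DD hA p P) := by
  intro a b hab g hg
  rw [mem_DD] at *
  exact anti_pow hA (le_max_right _ _) (max_le_max hab le_rfl) hg

theorem DD_comm (hA : AUGBStmt) [Fact p.Prime] (a b : ℕ) (g : P) (hg : g ∈ DD hA p P a) (h : P)
    (hh : h ∈ DD hA p P b) : g * h * g⁻¹ * h⁻¹ ∈ DD hA p P (a + b) := by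
  rw [mem_DD] at *
  set x := MonoidAlgebra.of (ZMod p) P g with hx
  set y := MonoidAlgebra.of (ZMod p) P h with hy
  have hx' : x * MonoidAlgebra.of (ZMod p) P g⁻¹ = 1 := by
    rw [hx, ← map_mul, mul_inv_cancel, map_one]
  have hy' : y * MonoidAlgebra.of (ZMod p) P h⁻¹ = 1 := by
    rw [hy, ← map_mul, mul_inv_cancel, map_one]
  have h1 : MonoidAlgebra.of (ZMod p) P (g * h * g⁻¹ * h⁻¹) - 1 =
      ((x - 1) * (y - 1) - (y - 1) * (x - 1)) *
        (MonoidAlgebra.of (ZMod p) P g⁻¹ * MonoidAlgebra.of (ZMod p) P h⁻¹) := by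
    have e1 : (x - 1) * (y - 1) - (y - 1) * (x - 1) = x * y - y * x := by noncomm_ring
    rw [e1, sub_mul]
    have e2 : y * x * (MonoidAlgebra.of (ZMod p) P g⁻¹ * MonoidAlgebra.of (ZMod p) P h⁻¹) = 1 := by
      calc y * x * (MonoidAlgebra.of (ZMod p) P g⁻¹ * MonoidAlgebra.of (ZMod p) P h⁻¹)
          = y * (x * MonoidAlgebra.of (ZMod p) P g⁻¹) * MonoidAlgebra.of (ZMod p) P h⁻¹ := by
            simp only [mul_assoc]
        _ = 1 := by rw [hx', mul_one, hy']
    rw [e2, map_mul, map_mul, map_mul, ← hx, ← hy]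
    simp only [mul_assoc]
  rw [h1]
  have h2 : (x - 1) * (y - 1) ∈ (augI p P) ^ (max a 1 + max b 1) := by
    rw [pow_add]; exact Submodule.mul_mem_mul hg hh
  have h3 : (y - 1) * (x - 1) ∈ (augI p P) ^ (max a 1 + max b 1) := by
    rw [add_comm, pow_add]; exact Submodule.mul_mem_mul hh hg
  apply right hA (le_max_right _ _)
  refine anti_pow hA (le_max_right _ _) ?_ (Submodule.sub_mem _ h2 h3)
  omega

theorem DD_pow (hA : AUGBStmt) [Fact p.Prime] (a : ℕ) (g : P) (hg : g ∈ DD hA p P a) :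
    g ^ p ∈ DD hA p P (p * a) := by
  rw [mem_DD] at *
  have hp : 2 ≤ p := (Fact.out : p.Prime).two_le
  have : CharP (MonoidAlgebra (ZMod p) P) p :=
    charP_of_injective_algebraMap (FaithfulSMul.algebraMap_injective (ZMod p) _) p
  have h1 : MonoidAlgebra.of (ZMod p) P (g ^ p) - 1 = (MonoidAlgebra.of (ZMod p) P g - 1) ^ p := by
    rw [sub_pow_char_of_commute _ (Commute.one_right _), one_pow, map_pow]
  rw [h1]
  have h2 : (MonoidAlgebra.of (ZMod p) P g - 1) ^ p ∈ ((augI p P) ^ (max a 1)) ^ p :=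
    Submodule.pow_mem_pow _ hg p
  rw [← pow_mul] at h2
  refine anti_pow hA (le_max_right _ _) ?_ h2
  have := Nat.le_mul_of_pos_left p (Nat.succ_pos 0)
  apply max_le
  · rw [mul_comm]; exact Nat.mul_le_mul_right _ (le_max_left _ _)
  · have h3 : 1 ≤ max a 1 := le_max_right _ _
    nlinarith

theorem DD_normal (hA : AUGBStmt) [Fact p.Prime] (n : ℕ) : (DD hA p P n).Normal := by
  constructor
  intro g hg x
  rw [mem_DD] at *
  have h0 : MonoidAlgebra.of (ZMod p) P x * MonoidAlgebra.of (ZMod p) P x⁻¹ = 1 := by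
    rw [← map_mul, mul_inv_cancel, map_one]
  have h1 : MonoidAlgebra.of (ZMod p) P (x * g * x⁻¹) - 1 =
      MonoidAlgebra.of (ZMod p) P x * (MonoidAlgebra.of (ZMod p) P g - 1) *
        MonoidAlgebra.of (ZMod p) P x⁻¹ := by
    rw [mul_sub, mul_one, sub_mul, h0, map_mul, map_mul]
  rw [h1]
  exact right hA (le_max_right _ _) _ (left hA (le_max_right _ _) _ hg)

theorem DD_one (hA : AUGBStmt) [Fact p.Prime] : DD hA p P 1 = ⊤ := by
  rw [eq_top_iff]
  intro g _
  rw [mem_DD]
  simp only [max_self, pow_one]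
  exact (hA p P).1 g

theorem pow_pow_mem (hA : AUGBStmt) [Fact p.Prime] (g : P) (k : ℕ) :
    g ^ (p ^ k) ∈ DD hA p P (p ^ k) := by
  induction k with
  | zero => rw [pow_zero, DD_one]; trivial
  | succ k ih =>
    have := DD_pow hA _ _ ih
    rw [← pow_mul, ← pow_succ, ← pow_succ'] at this
    exact this

end GAM

theorem gam_thm (hA : AUGBStmt) (hF : FDIMStmt) (hN : NILPStmt) : GAMStmt := by
  intro p _
  refine ⟨GAM.DD hA p (FreeGroup (Fin 3)), fun n => GAM.DD_normal hA n, GAM.DD_anti hA,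
    GAM.DD_one hA, GAM.DD_comm hA, GAM.DD_pow hA, ?_, ?_, ?_⟩
  · intro n
    have := GAM.DD_normal (P := FreeGroup (Fin 3)) hA (p := p) n
    have hfin := hF p (FreeGroup (Fin 3)) 3 FreeGroup.of (FreeGroup.closure_range_of _) (max n 1)
      (le_max_right _ _)
    have hfin' : Finite (MonoidAlgebra (ZMod p) (FreeGroup (Fin 3)) ⧸
        (augI p (FreeGroup (Fin 3))) ^ (max n 1)) := Module.finite_of_finite (ZMod p)
    have hinj : ∃ F : (FreeGroup (Fin 3) ⧸ GAM.DD hA p (FreeGroup (Fin 3)) n) →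
        (MonoidAlgebra (ZMod p) (FreeGroup (Fin 3)) ⧸ (augI p (FreeGroup (Fin 3))) ^ (max n 1)),
        Function.Injective F := by
      have key : ∀ g h : FreeGroup (Fin 3), g⁻¹ * h ∈ GAM.DD hA p (FreeGroup (Fin 3)) n ↔
          Submodule.Quotient.mk (p := (augI p (FreeGroup (Fin 3))) ^ (max n 1))
            (MonoidAlgebra.of (ZMod p) _ g) = Submodule.Quotient.mk (MonoidAlgebra.of (ZMod p) _ h) := by
        intro g h
        rw [Submodule.Quotient.eq, GAM.mem_DD]
        have e0 : MonoidAlgebra.of (ZMod p) (FreeGroup (Fin 3)) g *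
            MonoidAlgebra.of (ZMod p) (FreeGroup (Fin 3)) g⁻¹ = 1 := by
          rw [← map_mul, mul_inv_cancel, map_one]
        have e0' : MonoidAlgebra.of (ZMod p) (FreeGroup (Fin 3)) g⁻¹ *
            MonoidAlgebra.of (ZMod p) (FreeGroup (Fin 3)) g = 1 := by
          rw [← map_mul, inv_mul_cancel, map_one]
        constructor
        · intro hm
          have := Submodule.neg_mem _ (GAM.left hA (le_max_right _ _)
            (MonoidAlgebra.of (ZMod p) (FreeGroup (Fin 3)) g) hm)
          rw [mul_sub, mul_one, map_mul, ← mul_assoc, e0, one_mul, neg_sub] at this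
          exact this
        · intro hm
          have := Submodule.neg_mem _ (GAM.left hA (le_max_right _ _)
            (MonoidAlgebra.of (ZMod p) (FreeGroup (Fin 3)) g⁻¹) hm)
          rw [mul_sub, e0', neg_sub, ← map_mul] at this
          exact this
      refine ⟨fun q => Quotient.liftOn' q (fun g => Submodule.Quotient.mk
        (MonoidAlgebra.of (ZMod p) _ g)) ?_, ?_⟩
      · intro g h hgh
        rw [QuotientGroup.leftRel_apply] at hgh
        exact (key g h).1 hgh
      · intro q q'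
        induction q using QuotientGroup.induction_on with
        | H g =>
          induction q' using QuotientGroup.induction_on with
          | H h =>
            intro he
            exact QuotientGroup.eq.2 ((key g h).2 he)
    obtain ⟨F, hFi⟩ := hinj
    have hq : Finite (FreeGroup (Fin 3) ⧸ GAM.DD hA p (FreeGroup (Fin 3)) n) :=
      Finite.of_injective F hFi
    have hp : IsPGroup p (FreeGroup (Fin 3) ⧸ GAM.DD hA p (FreeGroup (Fin 3)) n) := by
      intro q
      induction q using QuotientGroup.induction_on with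
      | H g =>
        refine ⟨n, ?_⟩
        rw [← QuotientGroup.mk_pow, QuotientGroup.eq_one_iff]
        refine GAM.DD_anti hA (Nat.le_of_lt ?_) (GAM.pow_pow_mem hA g n)
        exact Nat.lt_pow_self (Fact.out : p.Prime).one_lt
    exact (IsPGroup.iff_card.1 hp)
  · intro n hn g
    rw [GAM.mem_DD, max_eq_left hn]
  · intro Q _ _ hQ φ
    obtain ⟨m, hm, hbot⟩ := hN p Q hQ
    refine ⟨m, ?_⟩
    intro g hg
    rw [GAM.mem_DD, max_eq_left hm] at hg
    have h1 := (hA p (FreeGroup (Fin 3))).2.2.2.2 Q φ m _ hg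
    rw [hbot, Submodule.mem_bot, map_sub, map_one, sub_eq_zero] at h1
    rw [MonoidHom.mem_ker]
    apply MonoidAlgebra.of_injective (R := ZMod p)
    rw [map_one, ← h1]
    simp

end Pool.Agent.H82.PRP
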