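import Pool.Agent.H82.PRP.Stmts

/-!
# PRP, module LIDX : index of the image of `D n` in the lamplighter groups
-/

namespace Pool.Agent.H82.PRP

namespace LIDX

variable {p m : ℕ}

/-- the shift -/
def sh (p m : ℕ) : (ZMod (p ^ m) → ZMod p) →ₗ[ZMod p] (ZMod (p ^ m) → ZMod p) where
  toFun v := fun i => v (i - 1)
  map_add' _ _ := rfl
  map_smul' _ _ := rfl

theorem sh_apply (v : ZMod (p ^ m) → ZMod p) (i : ZMod (p ^ m)) : sh p m v i = v (i - 1) := rfl

/-- the embedding of the lamp group -/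
def io (v : ZMod (p ^ m) → ZMod p) : Lamp p m := ⟨v, 0⟩

theorem io_add (v w : ZMod (p ^ m) → ZMod p) : io (v + w) = io v * io w := by
  unfold io
  ext i <;> simp

theorem io_neg (v : ZMod (p ^ m) → ZMod p) : io (-v) = (io v)⁻¹ := by
  unfold io
  ext i <;> simp

theorem io_zero : io (0 : ZMod (p ^ m) → ZMod p) = 1 := by
  unfold io
  ext i <;> simp

theorem conj_X (v : ZMod (p ^ m) → ZMod p) :
    lampX p m * io v * (lampX p m)⁻¹ = io (sh p m v) := by
  unfold io lampX
  ext i
  · simp [sh_apply]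
  · simp

/-- the iterated commutators -/
noncomputable def y (p m : ℕ) : ℕ → (ZMod (p ^ m) → ZMod p)
  | 0 => (lampY p m).lamp
  | (j + 1) => sh p m (y p m j) - y p m j

theorem io_y_zero : io (y p m 0) = lampY p m := rfl

theorem sh_y (j : ℕ) : sh p m (y p m j) = y p m j + y p m (j + 1) := by
  rw [y]; abel

theorem lampX_pow (e : ℕ) : lampX p m ^ e = ⟨0, (e : ZMod (p ^ m))⟩ := by
  induction e with
  | zero =>
    rw [pow_zero]
    ext i <;> simp
  | succ e ih =>
    rw [pow_succ, ih]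
    unfold lampX
    ext i <;> simp

theorem sh_pow (s : ℕ) : ((sh p m)^[s]) (y p m 0) = fun i => if i = (s : ZMod (p ^ m)) then 1 else 0 := by
  induction s with
  | zero =>
    ext i
    simp [y, lampY, Pi.single_apply]
  | succ s ih =>
    rw [Function.iterate_succ_apply', ih]
    ext i
    rw [sh_apply]
    push_cast
    congr 1
    rw [sub_eq_iff_eq_add]

end LIDX

theorem lidx_thm (hSYS : SYSStmt) (hCMP : CMPStmt) : LIDXStmt := by
  intro p _ F _ _ _ _ _ gen D hF α hα m n hn
  obtain ⟨α', β, hα', hβ⟩ := hSYS p F gen D hF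
  obtain ⟨_, hsurj, _⟩ := hCMP p F gen D hF α β hα hβ
  have hp : p.Prime := Fact.out
  have : NeZero (p ^ m) := ⟨pow_ne_zero _ hp.ne_zero⟩
  set B : Subgroup (Lamp p m) := (D n).map (α m) with hB
  have hBn : B.Normal := (hF.normal n).map _ (hsurj m)
  have hy : ∀ j, ∃ w ∈ D (j + 1), α m w = LIDX.io (LIDX.y p m j) := by
    intro j
    induction j with
    | zero =>
      refine ⟨gen 1, ?_, ?_⟩
      · rw [zero_add, hF.one]; trivial
      · rw [hα.gen1, LIDX.io_y_zero]
    | succ j ih =>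
      obtain ⟨w, hw, he⟩ := ih
      refine ⟨gen 0 * w * (gen 0)⁻¹ * w⁻¹, ?_, ?_⟩
      · have h0 : gen 0 ∈ D 1 := by rw [hF.one]; trivial
        have := hF.comm 1 (j + 1) (gen 0) h0 w hw
        rwa [add_comm] at this
      · rw [map_mul, map_mul, map_mul, map_inv, map_inv, he, hα.gen0, LIDX.conj_X, ← LIDX.io_neg,
          ← LIDX.io_add]
        congr 1
        rw [LIDX.y]; abel
  have hyB : ∀ j, n - 1 ≤ j → LIDX.io (LIDX.y p m j) ∈ B := by
    intro j hj
    obtain ⟨w, hw, he⟩ := hy j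
    exact ⟨w, hF.anti (by omega) hw, he⟩
  have hXB : lampX p m ^ (p ^ n) ∈ B := by
    have h1 : ∀ k, (gen 0) ^ (p ^ k) ∈ D (p ^ k) := by
      intro k
      induction k with
      | zero => rw [pow_zero, hF.one]; trivial
      | succ k ih =>
        have := hF.pow _ _ ih
        rw [← pow_mul, ← pow_succ, ← pow_succ'] at this
        exact this
    refine ⟨(gen 0) ^ (p ^ n), hF.anti (Nat.le_of_lt (Nat.lt_pow_self hp.one_lt)) (h1 n), ?_⟩
    rw [map_pow, hα.gen0]
  -- the subspace of lamp vectors in `B`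
  let W : AddSubgroup (ZMod (p ^ m) → ZMod p) :=
    { carrier := {v | LIDX.io v ∈ B}
      add_mem' := by
        intro a b ha hb
        change LIDX.io (a + b) ∈ B
        rw [LIDX.io_add]
        exact B.mul_mem ha hb
      zero_mem' := by
        change LIDX.io (0 : ZMod (p ^ m) → ZMod p) ∈ B
        rw [LIDX.io_zero]
        exact B.one_mem
      neg_mem' := by
        intro a ha
        change LIDX.io (-a) ∈ B
        rw [LIDX.io_neg]
        exact B.inv_mem ha }
  have hWmem : ∀ v, v ∈ W ↔ LIDX.io v ∈ B := fun v => Iff.rfl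
  let W' : Submodule (ZMod p) (ZMod (p ^ m) → ZMod p) := AddSubgroup.toZModSubmodule p W
  have hW'mem : ∀ v, v ∈ W' ↔ LIDX.io v ∈ B := fun v => Iff.rfl
  have hWsh : ∀ v ∈ W', LIDX.sh p m v ∈ W' := by
    intro v hv
    rw [hW'mem] at *
    rw [← LIDX.conj_X]
    exact hBn.conj_mem _ hv _
  set R : Submodule (ZMod p) (ZMod (p ^ m) → ZMod p) :=
    Submodule.span (ZMod p) (Set.range fun j : Fin (n - 1) => LIDX.y p m j) ⊔ W' with hR
  have hyR : ∀ j, LIDX.y p m j ∈ R := by
    intro j
    by_cases hj : j < n - 1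
    · exact Submodule.mem_sup_left (Submodule.subset_span ⟨⟨j, hj⟩, rfl⟩)
    · exact Submodule.mem_sup_right ((hW'mem _).2 (hyB j (by omega)))
  have hRsh : ∀ v ∈ R, LIDX.sh p m v ∈ R := by
    intro v hv
    have hle : R ≤ R.comap (LIDX.sh p m) := by
      rw [hR]
      apply sup_le
      · rw [Submodule.span_le]
        rintro _ ⟨j, rfl⟩
        change LIDX.sh p m (LIDX.y p m j) ∈ R
        rw [LIDX.sh_y]
        exact R.add_mem (hyR j) (hyR (j + 1))
      · intro w hw
        exact Submodule.mem_sup_right (hWsh w hw)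
    exact hle hv
  have hpow : ∀ s, ((LIDX.sh p m)^[s]) (LIDX.y p m 0) ∈ R := by
    intro s
    induction s with
    | zero => exact hyR 0
    | succ s ih =>
      rw [Function.iterate_succ_apply']
      exact hRsh _ ih
  have hall : ∀ v, v ∈ R := by
    intro v
    have : v = ∑ s : ZMod (p ^ m), v s • ((LIDX.sh p m)^[s.val]) (LIDX.y p m 0) := by
      ext i
      rw [Finset.sum_apply]
      simp only [LIDX.sh_pow, Pi.smul_apply, smul_eq_mul, ZMod.natCast_val, ZMod.cast_id', id_eq,
        mul_ite, mul_one, mul_zero, Finset.sum_ite_eq, Finset.mem_univ, if_true]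
    rw [this]
    exact R.sum_mem fun s _ => R.smul_mem _ (hpow _)
  -- counting
  have hsur : Function.Surjective (fun c : (Fin (n - 1) → ZMod p) × Fin (p ^ n) =>
      ((LIDX.io (∑ j, c.1 j • LIDX.y p m j) * lampX p m ^ (c.2 : ℕ) : Lamp p m) : Lamp p m ⧸ B)) := by
    intro q
    induction q using QuotientGroup.induction_on with
    | H q =>
      obtain ⟨v', hv', w, hw, hvw⟩ := Submodule.mem_sup.1 (hall q.lamp)
      obtain ⟨c, hc⟩ := (Submodule.mem_span_range_iff_exists_fun (ZMod p)).1 hv'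
      have hpn : 0 < p ^ n := pow_pos hp.pos n
      refine ⟨(c, ⟨q.pos.val % p ^ n, Nat.mod_lt _ hpn⟩), ?_⟩
      change ((LIDX.io (∑ j, c j • LIDX.y p m j) * lampX p m ^ (q.pos.val % p ^ n) : Lamp p m) :
        Lamp p m ⧸ B) = (q : Lamp p m ⧸ B)
      rw [QuotientGroup.eq]
      have hq : q = LIDX.io v' * LIDX.io w * lampX p m ^ (q.pos.val) := by
        rw [← LIDX.io_add, hvw, LIDX.lampX_pow]
        unfold LIDX.io
        ext i <;> simp
      have hx : lampX p m ^ (q.pos.val) =
          lampX p m ^ (q.pos.val % p ^ n) * (lampX p m ^ (p ^ n)) ^ (q.pos.val / p ^ n) := by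
        rw [← pow_mul, ← pow_add, Nat.mod_add_div]
      have hv2 : LIDX.io (∑ j, c j • LIDX.y p m j) = LIDX.io v' := by rw [hc]
      rw [hv2]
      set x := lampX p m ^ (q.pos.val % p ^ n) with hxdef
      set z := (lampX p m ^ (p ^ n)) ^ (q.pos.val / p ^ n) with hzdef
      have hz : z ∈ B := B.pow_mem hXB _
      have hwB : x⁻¹ * LIDX.io w * x ∈ B := by
        have := hBn.conj_mem _ ((hW'mem w).1 hw) x⁻¹
        rwa [inv_inv] at this
      have : (LIDX.io v' * x)⁻¹ * q = (x⁻¹ * LIDX.io w * x) * z := by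
        rw [hq, hx]
        group
      rw [this]
      exact B.mul_mem hwB hz
  have hcard := Nat.card_le_card_of_surjective _ hsur
  have h1 : B.index = Nat.card (Lamp p m ⧸ B) := rfl
  rw [h1]
  refine hcard.trans ?_
  rw [Nat.card_prod, Nat.card_fun, Nat.card_zmod, Nat.card_fin, Nat.card_fin, ← pow_add]
  exact Nat.pow_le_pow_right hp.pos (by omega)

end Pool.Agent.H82.PRP
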